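import Pool.Agent.MP_d9582c_gt.H68.Log

/-! Moments of the spectral measures of matrices over group rings and the statement `DetStmt`. -/

open scoped InnerProductSpace ENNReal Topology
open MeasureTheory Set Filter

noncomputable section

namespace Pool.Agent.MP_d9582c_gt.H68

open Pool.Agent.MP_d9582c_gt.H34

universe v

section

variable {Q : Type*} [Group Q]

lemma compEquiv_apply {Q : Type*} (e : Q ≃ Q) (u : L2 Q) (y : Q) : compEquiv e u y = u (e y) := rfl

lemma norm_compEquiv {Q : Type*} (e : Q ≃ Q) : ‖compEquiv e‖ ≤ 1 :=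
  LinearMap.mkContinuous_norm_le _ zero_le_one _

lemma inner_compEquiv {Q : Type*} (e : Q ≃ Q) (u w : L2 Q) :
    ⟪compEquiv e u, w⟫_ℂ = ⟪u, compEquiv e.symm w⟫_ℂ := by
  rw [lp.inner_eq_tsum, lp.inner_eq_tsum, ← e.tsum_eq fun y => ⟪u y, compEquiv e.symm w y⟫_ℂ]
  simp only [compEquiv_apply, Equiv.symm_apply_apply]

lemma rmul_zero : rmul (0 : MonoidAlgebra ℚ Q) = 0 := by simp [rmul]

lemma rmul_add (a b : MonoidAlgebra ℚ Q) : rmul (a + b) = rmul a + rmul b := by
  unfold rmul
  rw [MonoidAlgebra.coeff_add, Finsupp.sum_add_index']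
  · simp
  · intro x c d
    rw [Rat.cast_add, add_smul]

lemma rmul_single (x : Q) (c : ℚ) :
    rmul (MonoidAlgebra.single x c) = (c : ℂ) • compEquiv (Equiv.mulRight x⁻¹) := by
  unfold rmul
  rw [MonoidAlgebra.coeff_single, Finsupp.sum_single_index]
  simp

lemma rmul_sum {ι : Type*} (s : Finset ι) (a : ι → MonoidAlgebra ℚ Q) :
    rmul (∑ i ∈ s, a i) = ∑ i ∈ s, rmul (a i) :=
  map_sum (AddMonoidHom.mk' rmul rmul_add) a s

lemma rmul_one : rmul (1 : MonoidAlgebra ℚ Q) = 1 := by
  rw [MonoidAlgebra.one_def, rmul_single]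
  ext u y
  simp [compEquiv_apply]

lemma rmul_mul (a b : MonoidAlgebra ℚ Q) : rmul (a * b) = rmul b ∘L rmul a := by
  induction a using MonoidAlgebra.induction_linear with
  | zero => simp [rmul_zero]
  | add a a' h h' => rw [add_mul, rmul_add, rmul_add, h, h', ContinuousLinearMap.comp_add]
  | single x c =>
    induction b using MonoidAlgebra.induction_linear with
    | zero => simp [rmul_zero]
    | add b b' h h' => rw [mul_add, rmul_add, rmul_add, h, h', ContinuousLinearMap.add_comp]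
    | single y d =>
      rw [MonoidAlgebra.single_mul_single, rmul_single, rmul_single, rmul_single]
      ext u z
      simp [compEquiv_apply, mul_assoc]

/-- the involution of the group ring -/
def inv (a : MonoidAlgebra ℚ Q) : MonoidAlgebra ℚ Q := MonoidAlgebra.mapDomain (fun x => x⁻¹) a

lemma inner_rmul (a : MonoidAlgebra ℚ Q) (u w : L2 Q) :
    ⟪rmul a u, w⟫_ℂ = ⟪u, rmul (inv a) w⟫_ℂ := by
  unfold inv
  induction a using MonoidAlgebra.induction_linear with
  | zero => simp [rmul_zero]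
  | add a a' h h' =>
    rw [MonoidAlgebra.mapDomain_add, rmul_add, rmul_add, _root_.add_apply,
      _root_.add_apply, inner_add_left, inner_add_right, h, h']
  | single x c =>
    rw [MonoidAlgebra.mapDomain_single, rmul_single, rmul_single, _root_.smul_apply,
      _root_.smul_apply, inner_smul_left, inner_smul_right, inner_compEquiv,
      Equiv.mulRight_symm, map_ratCast]

lemma rmulMat_apply {r s : ℕ} (A : Matrix (Fin r) (Fin s) (MonoidAlgebra ℚ Q)) (u : L2r Q r)
    (j : Fin s) : rmulMat A u j = ∑ i, rmul (A i j) (u i) := by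
  simp [rmulMat]

/-- the adjoint matrix -/
def adj {r s : ℕ} (A : Matrix (Fin r) (Fin s) (MonoidAlgebra ℚ Q)) :
    Matrix (Fin s) (Fin r) (MonoidAlgebra ℚ Q) := Matrix.of fun j i => inv (A i j)

lemma adjoint_rmulMat {r s : ℕ} (A : Matrix (Fin r) (Fin s) (MonoidAlgebra ℚ Q)) :
    ContinuousLinearMap.adjoint (rmulMat A) = rmulMat (adj A) := by
  symm
  rw [ContinuousLinearMap.eq_adjoint_iff]
  intro w u
  rw [← inner_conj_symm, ← inner_conj_symm w]
  congr 1
  simp only [PiLp.inner_apply, rmulMat_apply, sum_inner, inner_sum, inner_rmul, adj,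
    Matrix.of_apply]
  exact Finset.sum_comm

lemma rmulMat_mul {r s t : ℕ} (A : Matrix (Fin r) (Fin s) (MonoidAlgebra ℚ Q))
    (B : Matrix (Fin s) (Fin t) (MonoidAlgebra ℚ Q)) :
    rmulMat (A * B) = rmulMat B ∘L rmulMat A := by
  refine ContinuousLinearMap.ext fun u => PiLp.ext fun j => ?_
  simp only [ContinuousLinearMap.comp_apply, rmulMat_apply, Matrix.mul_apply, rmul_sum, rmul_mul,
    _root_.sum_apply, map_sum]
  exact Finset.sum_comm

lemma rmulMat_one {r : ℕ} : rmulMat (1 : Matrix (Fin r) (Fin r) (MonoidAlgebra ℚ Q)) = 1 := by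
  refine ContinuousLinearMap.ext fun u => PiLp.ext fun j => ?_
  rw [rmulMat_apply, Finset.sum_eq_single j, Matrix.one_apply_eq, rmul_one]
  · rfl
  · intro i _ h
    rw [Matrix.one_apply_ne h, rmul_zero, _root_.zero_apply]
  · simp

lemma rmulMat_pow {r : ℕ} (C : Matrix (Fin r) (Fin r) (MonoidAlgebra ℚ Q)) (k : ℕ) :
    rmulMat (C ^ k) = rmulMat C ^ k := by
  induction k with
  | zero => rw [pow_zero, pow_zero, rmulMat_one]
  | succ k h =>
    rw [pow_succ, rmulMat_mul, h, pow_succ']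
    rfl

open Classical in
lemma rmul_delta (a : MonoidAlgebra ℚ Q) :
    rmul a (lp.single 2 (1 : Q) (1 : ℂ)) 1 = (a.coeff 1 : ℂ) := by
  induction a using MonoidAlgebra.induction_linear with
  | zero => simp [rmul_zero]
  | add a a' h h' =>
    rw [rmul_add, _root_.add_apply, lp.coeFn_add, Pi.add_apply, h, h']
    simp
  | single x c =>
    rw [rmul_single, _root_.smul_apply, lp.coeFn_smul, Pi.smul_apply,
      compEquiv_apply]
    by_cases hx : x = 1
    · subst hx
      simp
    · simp [lp.single_apply, hx]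

lemma inner_stdVec {r : ℕ} (C : Matrix (Fin r) (Fin r) (MonoidAlgebra ℚ Q)) (j : Fin r) :
    ⟪stdVec Q r j, rmulMat C (stdVec Q r j)⟫_ℂ = ((C j j).coeff 1 : ℂ) := by
  classical
  have h0 : ∀ i, i ≠ j → stdVec Q r j i = 0 := fun i h => by simp [stdVec, h]
  have h1 : stdVec Q r j j = lp.single 2 (1 : Q) (1 : ℂ) := by
    simp only [stdVec, PiLp.single_eq_same]
  rw [PiLp.inner_apply, Finset.sum_eq_single j (fun i _ h => by rw [h0 i h, inner_zero_left])
    (by simp), rmulMat_apply, Finset.sum_eq_single j (fun i _ h => by rw [h0 i h, map_zero])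
    (by simp), h1, lp.inner_single_left, ← rmul_delta]
  simp

lemma moment_spec {H K : Type*} [NormedAddCommGroup H] [InnerProductSpace ℂ H] [CompleteSpace H]
    [NormedAddCommGroup K] [InnerProductSpace ℂ K] [CompleteSpace K] (B : H →L[ℂ] K)
    {ι : Type*} [Fintype ι] (w : ι → H) (k : ℕ) :
    ∫ x, x ^ k ∂(specMeasure (ContinuousLinearMap.adjoint B ∘L B) w) =
      ∑ j, (⟪w j, ((ContinuousLinearMap.adjoint B ∘L B) ^ k) (w j)⟫_ℂ).re := by
  rw [integral_spec _ _ (spec_sub B le_rfl) _ (by fun_prop), cfc_pow_id (R := ℝ) _ k (sa_adj B)]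

lemma moment {r s : ℕ} (A : Matrix (Fin r) (Fin s) (MonoidAlgebra ℚ Q)) (k : ℕ) :
    ∫ x, x ^ k ∂(matMeasure A) = ∑ j, ((((A * adj A) ^ k) j j).coeff 1 : ℝ) := by
  rw [matMeasure, moment_spec, adjoint_rmulMat, ← rmulMat_mul, ← rmulMat_pow]
  refine Finset.sum_congr rfl fun j _ => ?_
  rw [inner_stdVec]
  simp

lemma norm_rmulMat {r s : ℕ} (A : Matrix (Fin r) (Fin s) (MonoidAlgebra ℚ Q)) :
    ‖rmulMat A‖ ≤ ∑ j, ∑ i, ‖rmul (A i j)‖ := by
  refine ContinuousLinearMap.opNorm_le_bound _ (by positivity) fun u => ?_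
  have h1 : ‖rmulMat A u‖ ≤ ∑ j, ‖rmulMat A u j‖ := by
    refine (sq_le_sq₀ (norm_nonneg _) (by positivity)).1 ?_
    rw [PiLp.norm_sq_eq_of_L2]
    exact Finset.sum_sq_le_sq_sum_of_nonneg fun j _ => norm_nonneg _
  refine h1.trans ?_
  rw [Finset.sum_mul]
  refine Finset.sum_le_sum fun j _ => ?_
  rw [rmulMat_apply, Finset.sum_mul]
  refine (norm_sum_le _ _).trans (Finset.sum_le_sum fun i _ => ?_)
  exact ((rmul (A i j)).le_opNorm _).trans
    (mul_le_mul_of_nonneg_left (PiLp.norm_apply_le u i) (norm_nonneg _))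

end

section

variable {G : Type v} [Group G]

lemma bound_rmul (a : MonoidAlgebra ℚ G) : ∃ M : ℝ, ∀ (Q : Type v) [Group Q] (φ : G →* Q),
    ‖rmul (MonoidAlgebra.mapDomain φ a)‖ ≤ M := by
  induction a using MonoidAlgebra.induction_linear with
  | zero => exact ⟨0, fun Q _ φ => by simp [rmul_zero]⟩
  | add a a' h h' =>
    obtain ⟨M, h⟩ := h
    obtain ⟨M', h'⟩ := h'
    refine ⟨M + M', fun Q _ φ => ?_⟩
    rw [MonoidAlgebra.mapDomain_add, rmul_add]
    exact (norm_add_le _ _).trans (add_le_add (h Q φ) (h' Q φ))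
  | single x c =>
    refine ⟨‖(c : ℂ)‖ * 1, fun Q _ φ => ?_⟩
    rw [MonoidAlgebra.mapDomain_single, rmul_single, norm_smul]
    exact mul_le_mul_of_nonneg_left (norm_compEquiv _) (norm_nonneg _)

lemma bound_mat {r s : ℕ} (A : Matrix (Fin r) (Fin s) (MonoidAlgebra ℚ G)) :
    ∃ M : ℝ, ∀ (Q : Type v) [Group Q] (φ : G →* Q),
      Carr (matMeasure (A.map (MonoidAlgebra.mapDomainRingHom ℚ φ))) M := by
  choose M hM using fun i j => bound_rmul (A i j)
  refine ⟨(∑ j, ∑ i, M i j) * ∑ j, ∑ i, M i j, fun Q _ φ => carr_spec _ _ (spec_sub _ ?_)⟩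
  have h : ‖rmulMat (A.map (MonoidAlgebra.mapDomainRingHom ℚ φ))‖ ≤ ∑ j, ∑ i, M i j :=
    (norm_rmulMat _).trans (Finset.sum_le_sum fun j _ => Finset.sum_le_sum fun i _ => hM i j Q φ)
  rw [ContinuousLinearMap.norm_adjoint_comp_self]
  exact mul_self_le_mul_self (norm_nonneg _) h

lemma inv_map {Q : Type*} [Group Q] (φ : G →* Q) (a : MonoidAlgebra ℚ G) :
    inv (MonoidAlgebra.mapDomain φ a) = MonoidAlgebra.mapDomain φ (inv a) := by
  unfold inv
  induction a using MonoidAlgebra.induction_linear with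
  | zero => simp
  | add a a' h h' => simp only [MonoidAlgebra.mapDomain_add, h, h']
  | single x c => simp only [MonoidAlgebra.mapDomain_single, map_inv]

lemma moment_map {Q : Type*} [Group Q] (φ : G →* Q) {r s : ℕ}
    (A : Matrix (Fin r) (Fin s) (MonoidAlgebra ℚ G)) (k : ℕ) :
    ∫ x, x ^ k ∂(matMeasure (A.map (MonoidAlgebra.mapDomainRingHom ℚ φ))) =
      ∑ j, ((MonoidAlgebra.mapDomain φ (((A * adj A) ^ k) j j)).coeff 1 : ℝ) := by
  have h1 : adj (A.map (MonoidAlgebra.mapDomainRingHom ℚ φ)) =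
      (adj A).map (MonoidAlgebra.mapDomainRingHom ℚ φ) := by
    ext1 j i
    exact inv_map φ _
  rw [moment, h1, ← Matrix.map_mul, ← RingHom.mapMatrix_apply, ← map_pow]
  rfl

lemma coeff_map {Q : Type*} [Group Q] (φ : G →* Q) (a : MonoidAlgebra ℚ G)
    (h : ∀ x ∈ a.coeff.support, φ x = 1 → x = 1) :
    (MonoidAlgebra.mapDomain φ a).coeff 1 = a.coeff 1 := by
  classical
  show Finsupp.mapDomain φ a.coeff 1 = _
  rw [Finsupp.mapDomain, Finsupp.sum_apply, Finsupp.sum, Finset.sum_eq_single 1]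
  · simp
  · intro x hx hx1
    exact Finsupp.single_eq_of_ne' fun h' => hx1 (h x hx h')
  · intro h1
    rw [Finsupp.notMem_support_iff.1 h1]
    simp

lemma moment_eventually {ι : Type*} {l : Filter ι} (N : ι → Subgroup G) [∀ i, (N i).Normal]
    (hN : ∀ x : G, x ≠ 1 → ∀ᶠ i in l, x ∉ N i) {r s : ℕ}
    (A : Matrix (Fin r) (Fin s) (MonoidAlgebra ℚ G)) (k : ℕ) :
    ∀ᶠ i in l, ∫ x, x ^ k ∂(matMeasure (quotMat (N i) A)) = ∫ x, x ^ k ∂(matMeasure A) := by
  have h : ∀ᶠ i in l, ∀ j, ∀ x ∈ (((A * adj A) ^ k) j j).coeff.support,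
      QuotientGroup.mk' (N i) x = 1 → x = 1 := by
    refine eventually_all.2 fun j => (eventually_all_finset _).2 fun x _ => ?_
    by_cases hx : x = 1
    · exact Eventually.of_forall fun _ _ => hx
    · filter_upwards [hN x hx] with i hi h
      exact absurd ((QuotientGroup.eq_one_iff x).1 h) hi
  filter_upwards [h] with i hi
  rw [quotMat, moment_map, moment]
  exact Finset.sum_congr rfl fun j _ => by rw [coeff_map _ _ (hi j)]

end

theorem det : DetStmt.{v} := by
  intro G _ N _ hN r s A hlim ⟨c₀, hc₀, T₀, hT₀, hfin⟩ c hc η hη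
  obtain ⟨M, hM⟩ := bound_mat A
  have hA : Carr (matMeasure A) M := by
    have := hM G (MonoidHom.id G)
    rwa [MonoidAlgebra.mapDomainRingHom_id, RingHom.coe_id, Matrix.map_id] at this
  have hbot : matMeasure (quotMat ⊥ A) = matMeasure A := by
    have h1 : Carr (matMeasure (quotMat ⊥ A)) M := hM _ _
    have := hA.fin
    have := h1.fin
    refine ext_of_forall_integral_eq_of_IsFiniteMeasure fun f => ?_
    have h2 := weak_of_moments (l := (atTop : Filter ℕ)) (fun _ => h1) hA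
      (moment_eventually (fun _ => ⊥)
        (fun x hx => Eventually.of_forall fun _ h => hx (Subgroup.mem_bot.1 h)) A) f.continuous
    exact tendsto_nhds_unique tendsto_const_nhds h2
  have hx : ∀ x : G, x ≠ 1 → ∀ᶠ i in atTop, x ∉ N i := by
    intro x hx
    have h1 : x ∉ ⨅ i, N i := by
      rw [hN.2.2]
      exact fun h => hx (Subgroup.mem_bot.1 h)
    obtain ⟨i, hi⟩ := not_forall.1 (mt Subgroup.mem_iInf.2 h1)
    filter_upwards [eventually_ge_atTop i] with j hj h
    exact hi (hN.2.1 hj h)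
  rw [hbot] at hfin
  have hl := integrable_log hA hc₀ hT₀ hfin
  have hpos : 0 < fkDet A := by
    rw [fkDet, if_pos hl]
    exact Real.exp_pos _
  have hl' : ∀ᶠ i in atTop, IntegrableOn Real.log (Ioi 0) (matMeasure (quotMat (N i) A)) := by
    filter_upwards [hlim.eventually (lt_mem_nhds hpos)] with i hi
    by_contra h
    rw [fkDet, if_neg h] at hi
    exact lt_irrefl _ hi
  have hμ : ∀ i, Carr (matMeasure (quotMat (N i) A)) M := fun i => hM _ _
  refine unif_log hμ hA (fun f hf => weak_of_moments hμ hA (moment_eventually N hx A) hf) hl hl'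
    ?_ c hc η hη
  have h1 := ((Real.continuousAt_log hpos.ne').tendsto.comp hlim).const_mul 2
  rw [fkDet, if_pos hl, Real.log_exp, ← mul_assoc, mul_inv_cancel₀ two_ne_zero, one_mul] at h1
  refine h1.congr' ?_
  filter_upwards [hl'] with i hi
  rw [Function.comp_apply, fkDet, if_pos hi, Real.log_exp, ← mul_assoc,
    mul_inv_cancel₀ two_ne_zero, one_mul]

end Pool.Agent.MP_d9582c_gt.H68
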