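import Pool.Agent.MP_d9582c_gt.H68.Spec

/-! Weak convergence from moments and uniform integrability of the logarithm. -/

open scoped ENNReal Topology
open MeasureTheory Set Filter

noncomputable section

namespace Pool.Agent.MP_d9582c_gt.H68

/-- agreement of the moments gives weak convergence -/
lemma weak_of_moments {ι : Type*} {l : Filter ι} {μ : ι → Measure ℝ} {ν : Measure ℝ} {M : ℝ}
    (hμ : ∀ i, Carr (μ i) M) (hν : Carr ν M)
    (hm : ∀ k : ℕ, ∀ᶠ i in l, ∫ x, x ^ k ∂(μ i) = ∫ x, x ^ k ∂ν) {f : ℝ → ℝ} (hf : Continuous f) :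
    Tendsto (fun i => ∫ x, f x ∂(μ i)) l (𝓝 (∫ x, f x ∂ν)) := by
  have hp : ∀ p : Polynomial ℝ, ∀ᶠ i in l, ∫ x, p.eval x ∂(μ i) = ∫ x, p.eval x ∂ν := by
    intro p
    induction p using Polynomial.induction_on' with
    | add p q hp hq =>
      filter_upwards [hp, hq] with i h1 h2
      simp only [Polynomial.eval_add]
      rw [integral_add ((hμ i).integrable p.continuous) ((hμ i).integrable q.continuous),
        integral_add (hν.integrable p.continuous) (hν.integrable q.continuous), h1, h2]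
    | monomial k a =>
      filter_upwards [hm k] with i h1
      simp only [Polynomial.eval_monomial]
      rw [integral_const_mul, integral_const_mul, h1]
  have hb : ∀ (ρ : Measure ℝ), Carr ρ M → ∀ (p : Polynomial ℝ) (ε : ℝ),
      (∀ x ∈ Icc 0 M, |p.eval x - f x| < ε) →
      |∫ x, p.eval x ∂ρ - ∫ x, f x ∂ρ| ≤ ε * ∫ x, x ^ 0 ∂ρ := by
    intro ρ hρ p ε h
    have := hρ.fin
    rw [← integral_sub (hρ.integrable p.continuous) (hρ.integrable hf), ← Real.norm_eq_abs]
    simp only [pow_zero, integral_const, smul_eq_mul, mul_one]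
    exact norm_integral_le_of_norm_le_const (hρ.ae.mono fun x hx => (h x hx).le)
  rw [Metric.tendsto_nhds]
  intro ε hε
  have h0 : 0 ≤ ∫ x, x ^ 0 ∂ν := integral_nonneg fun x => by simp
  set m := ∫ x, x ^ 0 ∂ν with hm0
  obtain ⟨p, hp'⟩ := exists_polynomial_near_of_continuousOn 0 M f hf.continuousOn
    (ε / (2 * m + 1)) (by positivity)
  filter_upwards [hp p, hm 0] with i h1 h2
  have h3 := hb _ (hμ i) p _ hp'
  have h4 := hb _ hν p _ hp'
  rw [h1, h2] at h3
  rw [← hm0] at h3 h4
  have h5 : ε / (2 * m + 1) * m * 2 < ε := by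
    rw [div_mul_eq_mul_div, div_mul_eq_mul_div, div_lt_iff₀ (by positivity)]
    nlinarith
  rw [Real.dist_eq, abs_lt]
  rw [abs_le] at h3 h4
  constructor <;> linarith [h3.1, h3.2, h4.1, h4.2]

lemma lintegral_inv (T y : ℝ) (hT : 0 < T) (hy : 0 < y) :
    ∫⁻ t in Ioi T, (Iic y).indicator (fun t => (ENNReal.ofReal t)⁻¹) t =
      ENNReal.ofReal (Real.log (y / T)) := by
  rw [lintegral_indicator measurableSet_Iic, Measure.restrict_restrict measurableSet_Iic,
    inter_comm, Ioi_inter_Iic]
  rcases le_total y T with h | h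
  · rw [Ioc_eq_empty (not_lt.2 h), Measure.restrict_empty, lintegral_zero_measure, eq_comm,
      ENNReal.ofReal_eq_zero]
    exact Real.log_nonpos (by positivity) ((div_le_one hT).2 h)
  · have h0 : (0 : ℝ) ∉ uIcc T y := by
      rw [uIcc_of_le h]
      exact fun h' => absurd h'.1 (not_le.2 hT)
    rw [← integral_inv h0, intervalIntegral.integral_of_le h,
      ofReal_integral_eq_lintegral_ofReal]
    · refine setLIntegral_congr_fun measurableSet_Ioc fun t ht => ?_
      exact (ENNReal.ofReal_inv_of_pos (hT.trans ht.1)).symm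
    · exact ((intervalIntegrable_iff_integrableOn_Ioc_of_le h).1
        (intervalIntegral.intervalIntegrable_inv (fun x hx h' => h0 (h' ▸ hx)) continuousOn_id))
    · refine (ae_restrict_iff' measurableSet_Ioc).2 (Eventually.of_forall fun t ht => ?_)
      exact inv_nonneg.2 (hT.trans ht.1).le

lemma fubini (μ : Measure ℝ) [IsFiniteMeasure μ] (φ ψ : ℝ → ℝ) (hψ : Measurable ψ) (T : ℝ)
    (hT : 0 < T) (h0 : ∀ x, 0 < x → 0 < ψ x) (h : ∀ x t, 0 < x → 0 < t → (x ≤ φ t ↔ t ≤ ψ x)) :
    ∫⁻ t in Ioi T, μ (Ioc 0 (φ t)) / ENNReal.ofReal t =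
      ∫⁻ x in Ioi 0, ENNReal.ofReal (Real.log (ψ x / T)) ∂μ := by
  have e1 : ∫⁻ t in Ioi T, μ (Ioc 0 (φ t)) / ENNReal.ofReal t = ∫⁻ t in Ioi T, ∫⁻ x in Ioi 0,
      (Iic (ψ x)).indicator (fun t => (ENNReal.ofReal t)⁻¹) t ∂μ := by
    refine setLIntegral_congr_fun measurableSet_Ioi fun t ht => ?_
    have ht0 : 0 < t := hT.trans ht
    have e : ∫⁻ x in Ioi 0, (Iic (ψ x)).indicator (fun t => (ENNReal.ofReal t)⁻¹) t ∂μ =
        ∫⁻ x in Ioi 0, (Iic (φ t)).indicator (fun _ => (ENNReal.ofReal t)⁻¹) x ∂μ := by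
      refine setLIntegral_congr_fun measurableSet_Ioi fun x hx => ?_
      by_cases hxt : x ≤ φ t
      · rw [indicator_of_mem (show t ∈ Iic (ψ x) from (h x t hx ht0).1 hxt),
          indicator_of_mem (show x ∈ Iic (φ t) from hxt)]
      · rw [indicator_of_notMem (show t ∉ Iic (ψ x) from fun h' => hxt ((h x t hx ht0).2 h')),
          indicator_of_notMem (show x ∉ Iic (φ t) from hxt)]
    rw [e, lintegral_indicator measurableSet_Iic, Measure.restrict_restrict measurableSet_Iic,
      inter_comm, Ioi_inter_Iic, setLIntegral_const, mul_comm, div_eq_mul_inv]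
  rw [e1, lintegral_lintegral_swap]
  · exact setLIntegral_congr_fun measurableSet_Ioi fun x hx => lintegral_inv T _ hT (h0 x hx)
  · refine Measurable.aemeasurable ?_
    have e : (Function.uncurry fun t x =>
        (Iic (ψ x)).indicator (fun t => (ENNReal.ofReal t)⁻¹) t) =
        {p : ℝ × ℝ | p.1 ≤ ψ p.2}.indicator fun p => (ENNReal.ofReal p.1)⁻¹ := by
      funext p
      show (Iic (ψ p.2)).indicator (fun t => (ENNReal.ofReal t)⁻¹) p.1 = _
      by_cases hp : p.1 ≤ ψ p.2
      · rw [indicator_of_mem (show p ∈ {p : ℝ × ℝ | p.1 ≤ ψ p.2} from hp)]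
        exact indicator_of_mem (show p.1 ∈ Iic (ψ p.2) from hp) _
      · rw [indicator_of_notMem (show p ∉ {p : ℝ × ℝ | p.1 ≤ ψ p.2} from hp)]
        exact indicator_of_notMem (show p.1 ∉ Iic (ψ p.2) from hp) _
    rw [e]
    exact Measurable.indicator (by fun_prop)
      (measurableSet_le measurable_fst (hψ.comp measurable_snd))

lemma integrable_log {ν : Measure ℝ} {M : ℝ} (hν : Carr ν M) {c T : ℝ} (hc : 0 < c) (hT : 0 < T)
    (h : ∫⁻ t in Ioi T, ν (Ioc 0 (c / t)) / ENNReal.ofReal t ≠ ⊤) :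
    IntegrableOn Real.log (Ioi 0) ν := by
  have := hν.fin
  rw [fubini ν (fun t => c / t) (fun x => c / x) (by fun_prop) T hT (fun x hx => by positivity)
    fun x t hx ht => by rw [le_div_iff₀ ht, le_div_iff₀ hx, mul_comm]] at h
  have h1 : IntegrableOn (fun x => (ENNReal.ofReal (Real.log (c / x / T))).toReal) (Ioi 0) ν :=
    integrable_toReal_of_lintegral_ne_top (by fun_prop) h
  have h2 : IntegrableOn (fun x => |Real.log (c / T)| + |x|) (Ioi 0) ν :=
    (hν.integrable (by fun_prop)).integrableOn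
  refine Integrable.mono' (h1.add h2) Real.measurable_log.aestronglyMeasurable ?_
  refine (ae_restrict_iff' measurableSet_Ioi).2 (Eventually.of_forall fun x hx => ?_)
  have hx0 : 0 < x := hx
  have e : Real.log (c / x / T) = Real.log (c / T) - Real.log x := by
    rw [div_right_comm, Real.log_div (by positivity) hx0.ne']
  simp only [Pi.add_apply]
  rw [ENNReal.toReal_ofReal', e, Real.norm_eq_abs, abs_le]
  have h3 := le_max_left (Real.log (c / T) - Real.log x) 0
  have h4 := le_max_right (Real.log (c / T) - Real.log x) 0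
  have h5 := le_abs_self (Real.log (c / T))
  have h6 := neg_abs_le (Real.log (c / T))
  have h7 := Real.log_le_sub_one_of_pos hx0
  have h8 := abs_of_pos hx0
  constructor <;> linarith

/-- the continuous cut-off of the logarithm at scale `e` -/
def cut (e x : ℝ) : ℝ := Real.log (max x e) * min 1 (max x 0 / e)

lemma cut_cont {e : ℝ} (he : 0 < e) : Continuous (cut e) := by
  unfold cut
  refine Continuous.mul (Continuous.log (by fun_prop) fun x => ?_) (by fun_prop)
  exact (lt_max_of_lt_right he).ne'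

lemma cut_of_le {e x : ℝ} (he : 0 < e) (hx : e ≤ x) : cut e x = Real.log x := by
  rw [cut, max_eq_left hx, max_eq_left (he.le.trans hx), min_eq_left ((one_le_div he).2 hx),
    mul_one]

lemma cut_bounds {e x : ℝ} (he : 0 < e) (he1 : e ≤ 1) (hx : 0 < x) :
    0 ≤ cut e x - Real.log x ∧ Real.log (e / x) ≤ cut e x - Real.log x ∧
      cut e x - Real.log x ≤ |Real.log x| := by
  rcases le_total e x with h | h
  · rw [cut_of_le he h, sub_self]
    exact ⟨le_rfl, Real.log_nonpos (by positivity) ((div_le_one hx).2 h), abs_nonneg _⟩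
  · have h1 : x / e ≤ 1 := (div_le_one he).2 h
    have h2 : 0 ≤ x / e := by positivity
    have h3 : Real.log e ≤ 0 := Real.log_nonpos he.le he1
    have h4 : Real.log x ≤ Real.log e := Real.log_le_log hx h
    rw [cut, max_eq_right h, max_eq_left hx.le, min_eq_right h1, Real.log_div he.ne' hx.ne']
    refine ⟨by nlinarith, by nlinarith, ?_⟩
    have := neg_le_abs (Real.log x)
    nlinarith

lemma integral_cut {ν : Measure ℝ} (e : ℝ) : ∫ x in Ioi 0, cut e x ∂ν = ∫ x, cut e x ∂ν := by
  refine setIntegral_eq_integral_of_forall_compl_eq_zero fun x hx => ?_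
  rw [cut, max_eq_right (show x ≤ 0 from not_lt.1 hx), zero_div, min_eq_right zero_le_one, mul_zero]

theorem unif_log {μ : ℕ → Measure ℝ} {ν : Measure ℝ} {M : ℝ} (hμ : ∀ i, Carr (μ i) M)
    (hν : Carr ν M)
    (hw : ∀ f : ℝ → ℝ, Continuous f → Tendsto (fun i => ∫ x, f x ∂(μ i)) atTop (𝓝 (∫ x, f x ∂ν)))
    (hl : IntegrableOn Real.log (Ioi 0) ν)
    (hl' : ∀ᶠ i in atTop, IntegrableOn Real.log (Ioi 0) (μ i))
    (ht : Tendsto (fun i => ∫ x in Ioi 0, Real.log x ∂(μ i)) atTop
      (𝓝 (∫ x in Ioi 0, Real.log x ∂ν))) (c : ℝ) (hc : 0 < c) (η : ℝ) (hη : 0 < η) :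
    ∀ᶠ T in atTop, ∀ᶠ i in atTop,
      ∫⁻ t in Ioi T, μ i (Ioc 0 (c / √t)) / ENNReal.ofReal t ≤ ENNReal.ofReal η := by
  have he : ∀ n : ℕ, (0 : ℝ) < 1 / ((n : ℝ) + 1) := fun n => by positivity
  have he1 : ∀ n : ℕ, 1 / ((n : ℝ) + 1) ≤ 1 := fun n => by
    rw [div_le_one (by positivity)]
    linarith [Nat.cast_nonneg (α := ℝ) n]
  have h1 : Tendsto (fun n : ℕ => ∫ x in Ioi 0, cut (1 / ((n : ℝ) + 1)) x - Real.log x ∂ν) atTop
      (𝓝 (∫ x in Ioi 0, (0 : ℝ) ∂ν)) := by
    refine tendsto_integral_of_dominated_convergence (fun x => |Real.log x|)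
      (fun n => ((cut_cont (he n)).measurable.sub Real.measurable_log).aestronglyMeasurable)
      hl.abs (fun n => ?_) ?_
    · refine (ae_restrict_iff' measurableSet_Ioi).2 (Eventually.of_forall fun x hx => ?_)
      have := cut_bounds (he n) (he1 n) hx
      rw [Real.norm_eq_abs, abs_of_nonneg this.1]
      exact this.2.2
    · refine (ae_restrict_iff' measurableSet_Ioi).2 (Eventually.of_forall fun x hx => ?_)
      refine tendsto_const_nhds.congr' ?_
      filter_upwards [tendsto_one_div_add_atTop_nhds_zero_nat.eventually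
        (ge_mem_nhds (show (0 : ℝ) < x from hx))] with n hn
      rw [cut_of_le (he n) hn, sub_self]
  rw [integral_zero] at h1
  obtain ⟨n, hn⟩ := (h1.eventually (gt_mem_nhds (half_pos hη))).exists
  set e : ℝ := 1 / ((n : ℝ) + 1) with he'
  have he0 : 0 < e := he n
  have hsplit : ∀ ρ : Measure ℝ, Carr ρ M → IntegrableOn Real.log (Ioi 0) ρ →
      ∫ x in Ioi 0, cut e x - Real.log x ∂ρ = ∫ x, cut e x ∂ρ - ∫ x in Ioi 0, Real.log x ∂ρ := by
    intro ρ hρ h
    rw [integral_sub (hρ.integrable (cut_cont he0)).integrableOn h, integral_cut]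
  rw [hsplit ν hν hl] at hn
  have h2 := ((hw _ (cut_cont he0)).sub ht).eventually (gt_mem_nhds hn)
  filter_upwards [eventually_ge_atTop ((c / e) ^ 2)] with T hT
  have hT0 : 0 < T := lt_of_lt_of_le (by positivity) hT
  filter_upwards [h2, hl'] with i hi hli
  have := (hμ i).fin
  rw [← hsplit _ (hμ i) hli] at hi
  rw [fubini (μ i) (fun t => c / √t) (fun x => (c / x) ^ 2) (by fun_prop) T hT0
    (fun x hx => by positivity) fun x t hx ht => by
      rw [le_div_iff₀ (Real.sqrt_pos.2 ht), ← Real.sqrt_le_left (by positivity),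
        le_div_iff₀ hx, mul_comm]]
  have hint : IntegrableOn (fun x => 2 * (cut e x - Real.log x)) (Ioi 0) (μ i) :=
    (((hμ i).integrable (cut_cont he0)).integrableOn.sub hli).const_mul 2
  calc ∫⁻ x in Ioi 0, ENNReal.ofReal (Real.log ((c / x) ^ 2 / T)) ∂(μ i)
      ≤ ∫⁻ x in Ioi 0, ENNReal.ofReal (2 * (cut e x - Real.log x)) ∂(μ i) := by
        refine setLIntegral_mono' measurableSet_Ioi fun x hx => ENNReal.ofReal_le_ofReal ?_
        have hx0 : 0 < x := hx
        have h3 := (cut_bounds he0 (he1 n) hx0).2.1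
        have h4 : (c / x) ^ 2 / T ≤ (e / x) ^ 2 := by
          rw [div_le_iff₀ hT0]
          calc (c / x) ^ 2 = (e / x) ^ 2 * (c / e) ^ 2 := by field_simp
            _ ≤ (e / x) ^ 2 * T := by gcongr
        have h5 := Real.log_le_log (by positivity) h4
        rw [Real.log_pow] at h5
        push_cast at h5
        linarith
    _ = ENNReal.ofReal (∫ x in Ioi 0, 2 * (cut e x - Real.log x) ∂(μ i)) := by
        refine (ofReal_integral_eq_lintegral_ofReal hint ?_).symm
        refine (ae_restrict_iff' measurableSet_Ioi).2 (Eventually.of_forall fun x hx => ?_)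
        exact mul_nonneg zero_le_two (cut_bounds he0 (he1 n) hx).1
    _ ≤ ENNReal.ofReal η := by
        rw [integral_const_mul]
        exact ENNReal.ofReal_le_ofReal (by linarith)

end Pool.Agent.MP_d9582c_gt.H68
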