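import Pool.Agent.MP_d9582c_gt.H34.Stmts

/-! Basic properties of the spectral measure and the statement `MeasStmt`. -/

open scoped InnerProductSpace ENNReal CompactlySupported Topology
open MeasureTheory Set Filter

noncomputable section

namespace Pool.Agent.MP_d9582c_gt.H68

open Pool.Agent.MP_d9582c_gt.H34

universe v

/-- a finite measure on the line that is carried by the interval from `0` to `M` -/
structure Carr (μ : Measure ℝ) (M : ℝ) : Prop where
  fin : IsFiniteMeasure μ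
  ae : ∀ᵐ x ∂μ, x ∈ Icc 0 M

lemma Carr.integrable {μ : Measure ℝ} {M : ℝ} (h : Carr μ M) {f : ℝ → ℝ} (hf : Continuous f) :
    Integrable f μ := by
  have := h.fin
  rw [← Measure.restrict_eq_self_of_ae_mem h.ae]
  exact hf.continuousOn.integrableOn_compact isCompact_Icc

section

variable {H : Type*} [NormedAddCommGroup H] [InnerProductSpace ℂ H] [CompleteSpace H]
  {ι : Type*} [Fintype ι] (T : H →L[ℂ] H) (w : ι → H)

lemma integral_spec_cc (f : ℝ → ℝ) (hf : Continuous f) (hc : HasCompactSupport f) :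
    ∫ x, f x ∂(specMeasure T w) = ∑ j, (⟪w j, cfc f T (w j)⟫_ℂ).re :=
  RealRMK.integral_rieszMeasure (specFunctional T w) ⟨⟨f, hf⟩, hc⟩

/-- a compactly supported tent -/
lemma tent_supp (R : ℝ) (g : ℝ → ℝ) : HasCompactSupport fun x : ℝ => max 0 (R - |x|) * g x := by
  refine HasCompactSupport.intro (isCompact_Icc (a := -R) (b := R)) fun x hx => ?_
  have : R - |x| ≤ 0 := by
    by_contra h
    exact hx (abs_le.1 (by linarith))
  rw [max_eq_left this, zero_mul]

lemma carr_spec {M : ℝ} (hM : spectrum ℝ T ⊆ Icc 0 M) : Carr (specMeasure T w) M := by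
  have hreg : (specMeasure T w).Regular := RealRMK.regular_rieszMeasure _
  have hae : ∀ᵐ x ∂(specMeasure T w), x ∈ Icc 0 M := by
    have key : ∀ n : ℕ, ∀ᵐ x ∂(specMeasure T w),
        max 0 ((n : ℝ) - |x|) * (max 0 (-x) + max 0 (x - M)) = 0 := by
      intro n
      have hcont : Continuous fun x : ℝ => max 0 ((n : ℝ) - |x|) * (max 0 (-x) + max 0 (x - M)) := by
        fun_prop
      have h0 : ∫ x, max 0 ((n : ℝ) - |x|) * (max 0 (-x) + max 0 (x - M)) ∂(specMeasure T w)
          = 0 := by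
        rw [integral_spec_cc T w _ hcont (tent_supp _ _)]
        have : cfc (fun x : ℝ => max 0 ((n : ℝ) - |x|) * (max 0 (-x) + max 0 (x - M))) T = 0 := by
          rw [← cfc_zero ℝ T]
          refine cfc_congr fun x hx => ?_
          have := hM hx
          simp only [Pi.zero_apply]
          rw [max_eq_left (neg_nonpos.2 this.1), max_eq_left (sub_nonpos.2 this.2), add_zero,
            mul_zero]
        simp [this]
      exact (integral_eq_zero_iff_of_nonneg (fun x => by positivity)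
        (hcont.integrable_of_hasCompactSupport (tent_supp _ _))).1 h0
    filter_upwards [ae_all_iff.2 key] with x hx
    obtain ⟨n, hn⟩ := exists_nat_gt |x|
    have h1 : 0 < max 0 ((n : ℝ) - |x|) := lt_max_of_lt_right (by linarith)
    have h2 := (mul_eq_zero.1 (hx n)).resolve_left h1.ne'
    have h3 := le_max_left 0 (-x)
    have h4 := le_max_left 0 (x - M)
    have h5 := le_max_right 0 (-x)
    have h6 := le_max_right 0 (x - M)
    constructor <;> linarith
  refine ⟨⟨?_⟩, hae⟩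
  rw [← Measure.restrict_eq_self_of_ae_mem hae, Measure.restrict_apply MeasurableSet.univ,
    univ_inter]
  exact isCompact_Icc.measure_lt_top

lemma integral_spec {M : ℝ} (hM : spectrum ℝ T ⊆ Icc 0 M) (f : ℝ → ℝ) (hf : Continuous f) :
    ∫ x, f x ∂(specMeasure T w) = ∑ j, (⟪w j, cfc f T (w j)⟫_ℂ).re := by
  have h := carr_spec T w hM
  have hs : HasCompactSupport fun x : ℝ => min 1 (max 0 (|M| + 1 - |x|)) * f x := by
    refine HasCompactSupport.intro (isCompact_Icc (a := -(|M| + 1)) (b := |M| + 1)) fun x hx => ?_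
    have : |M| + 1 - |x| ≤ 0 := by
      by_contra h
      exact hx (abs_le.1 (by linarith))
    rw [max_eq_left this, min_eq_right zero_le_one, zero_mul]
  have he : ∀ x ∈ Icc 0 M, min 1 (max 0 (|M| + 1 - |x|)) * f x = f x := by
    intro x hx
    have h1 : |x| ≤ |M| := by
      rw [abs_of_nonneg hx.1]
      exact hx.2.trans (le_abs_self M)
    rw [min_eq_left (le_max_of_le_right (by linarith)), one_mul]
  rw [← cfc_congr fun x hx => he x (hM hx), ← integral_spec_cc T w _ (by fun_prop) hs]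
  exact integral_congr_ae (h.ae.mono fun x hx => (he x hx).symm)

end

lemma spec_sub {H K : Type*} [NormedAddCommGroup H] [InnerProductSpace ℂ H] [CompleteSpace H]
    [NormedAddCommGroup K] [InnerProductSpace ℂ K] [CompleteSpace K] (B : H →L[ℂ] K) {M : ℝ}
    (hM : ‖ContinuousLinearMap.adjoint B ∘L B‖ ≤ M) :
    spectrum ℝ (ContinuousLinearMap.adjoint B ∘L B) ⊆ Icc 0 M := by
  intro x hx
  have h0 : 0 ≤ ContinuousLinearMap.adjoint B ∘L B :=
    (ContinuousLinearMap.nonneg_iff_isPositive _).2 (ContinuousLinearMap.isPositive_adjoint_comp_self B)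
  refine ⟨spectrum_nonneg_of_nonneg h0 hx, ?_⟩
  have h1 := spectrum.norm_le_norm_mul_of_mem hx
  have h2 : ‖(1 : H →L[ℂ] H)‖ ≤ 1 := ContinuousLinearMap.norm_id_le
  calc x ≤ ‖x‖ := le_abs_self x
    _ ≤ ‖ContinuousLinearMap.adjoint B ∘L B‖ * 1 :=
      h1.trans (mul_le_mul_of_nonneg_left h2 (norm_nonneg _))
    _ ≤ M := by rwa [mul_one]

lemma sa_adj {H K : Type*} [NormedAddCommGroup H] [InnerProductSpace ℂ H] [CompleteSpace H]
    [NormedAddCommGroup K] [InnerProductSpace ℂ K] [CompleteSpace K] (B : H →L[ℂ] K) :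
    IsSelfAdjoint (ContinuousLinearMap.adjoint B ∘L B) :=
  (ContinuousLinearMap.isPositive_adjoint_comp_self B).isSelfAdjoint

lemma small_tendsto {H : Type*} [NormedAddCommGroup H] [InnerProductSpace ℂ H] [CompleteSpace H]
    (T : H →L[ℂ] H) (hT : IsSelfAdjoint T) {u : H} (hu : u ∈ (LinearMap.ker T.toLinearMap)ᗮ) :
    Tendsto (fun n : ℕ => cfc (fun x : ℝ => (1 + (n : ℝ) ^ 2 * x ^ 2)⁻¹) T u) atTop (𝓝 0) := by
  have hc : ∀ n : ℕ, Continuous fun x : ℝ => (1 + (n : ℝ) ^ 2 * x ^ 2)⁻¹ := fun n =>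
    Continuous.inv₀ (by fun_prop) fun x => by positivity
  have h1 : ∀ n : ℕ, ‖cfc (fun x : ℝ => (1 + (n : ℝ) ^ 2 * x ^ 2)⁻¹) T‖ ≤ 1 := fun n =>
    norm_cfc_le zero_le_one fun x _ => by
      rw [Real.norm_eq_abs, abs_of_nonneg (by positivity)]
      exact inv_le_one_of_one_le₀ (by nlinarith [sq_nonneg ((n : ℝ) * x)])
  have h2 : ∀ n : ℕ, 0 < n → ‖cfc (fun x : ℝ => (1 + (n : ℝ) ^ 2 * x ^ 2)⁻¹) T * T‖ ≤ (n : ℝ)⁻¹ := by
    intro n hn
    have hn' : (0 : ℝ) < n := Nat.cast_pos.2 hn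
    have e : cfc (fun x : ℝ => (1 + (n : ℝ) ^ 2 * x ^ 2)⁻¹) T * T =
        cfc (fun x : ℝ => (1 + (n : ℝ) ^ 2 * x ^ 2)⁻¹ * x) T := by
      rw [cfc_mul _ (fun x => x) T (hc n).continuousOn continuous_id.continuousOn, cfc_id' ℝ T]
    rw [e]
    refine norm_cfc_le (by positivity) fun x _ => ?_
    rw [Real.norm_eq_abs, abs_mul, abs_of_nonneg (by positivity), inv_mul_le_iff₀ (by positivity),
      le_mul_inv_iff₀ hn']
    have : (n : ℝ) ^ 2 * x ^ 2 = (|x| * n) ^ 2 := by rw [mul_pow, sq_abs, mul_comm]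
    rw [this]
    nlinarith [sq_nonneg (|x| * n - 1)]
  rw [ContinuousLinearMap.orthogonal_ker, hT.adjoint_eq] at hu
  rw [Metric.tendsto_atTop]
  intro ε hε
  obtain ⟨y, ⟨z, rfl⟩, hz⟩ := Metric.mem_closure_iff.1 hu (ε / 2) (by positivity)
  obtain ⟨N, hN⟩ := exists_nat_gt (2 * ‖z‖ / ε)
  refine ⟨N + 1, fun n hn => ?_⟩
  have hn0 : 0 < n := by omega
  have hn' : (0 : ℝ) < n := Nat.cast_pos.2 hn0
  have hn2 : 2 * ‖z‖ / ε < n := hN.trans_le (Nat.cast_le.2 (by omega))
  rw [dist_zero_right]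
  rw [dist_eq_norm] at hz
  set E := cfc (fun x : ℝ => (1 + (n : ℝ) ^ 2 * x ^ 2)⁻¹) T with hE
  have e : E u = E (u - T z) + (E * T) z := by simp
  have h3 : ‖E (u - T z)‖ ≤ 1 * ‖u - T z‖ := E.le_of_opNorm_le (h1 n) _
  have h4 : ‖(E * T) z‖ ≤ (n : ℝ)⁻¹ * ‖z‖ := (E * T).le_of_opNorm_le (h2 n hn0) _
  have h5 : (n : ℝ)⁻¹ * ‖z‖ ≤ ε / 2 := by
    rw [inv_mul_le_iff₀ hn']
    rw [div_lt_iff₀ hε] at hn2
    linarith
  have h6 : ‖u - T z‖ < ε / 2 := hz
  rw [e]
  linarith [norm_add_le (E (u - T z)) ((E * T) z)]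

theorem meas : MeasStmt.{v} := by
  intro H K _ _ _ _ _ _ B r w β hβ
  set T := ContinuousLinearMap.adjoint B ∘L B with hT
  have hsa : IsSelfAdjoint T := sa_adj B
  have hM : spectrum ℝ T ⊆ Icc 0 ‖T‖ := spec_sub B le_rfl
  have hcarr := carr_spec T w hM
  have hker : LinearMap.ker T.toLinearMap = LinearMap.ker B.toLinearMap :=
    ContinuousLinearMap.ker_adjoint_comp_self B
  set v : Fin r → H := fun j => (LinearMap.ker B.toLinearMap)ᗮ.starProjection (w j) with hv
  have hv1 : ∀ j, v j ∈ (LinearMap.ker T.toLinearMap)ᗮ := fun j => by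
    rw [hker]; exact Submodule.starProjection_apply_mem _ _
  have hv2 : ∀ j, T (w j - v j) = 0 := fun j => by
    have h1 := Submodule.sub_starProjection_mem_orthogonal (K := (LinearMap.ker B.toLinearMap)ᗮ) (w j)
    rw [Submodule.orthogonal_orthogonal] at h1
    have h2 : w j - v j ∈ LinearMap.ker T.toLinearMap := by rw [hker]; exact h1
    exact h2
  have hc : ∀ n : ℕ, Continuous fun x : ℝ => (1 + (n : ℝ) ^ 2 * x ^ 2)⁻¹ := fun n =>
    Continuous.inv₀ (by fun_prop) fun x => by positivity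
  let F : ℕ → ℝ → ℝ := fun n x => β x ^ 2 - β x ^ 2 * (1 + (n : ℝ) ^ 2 * x ^ 2)⁻¹
  have hFc : ∀ n, Continuous (F n) := fun n => by
    have := hc n
    fun_prop
  have hint : ∀ n, ∫ x, F n x ∂(specMeasure T w) = ∑ j, (⟪v j, cfc (fun x => β x ^ 2) T (v j) -
      cfc (fun x => β x ^ 2) T (cfc (fun x : ℝ => (1 + (n : ℝ) ^ 2 * x ^ 2)⁻¹) T (v j))⟫_ℂ).re := by
    intro n
    rw [integral_spec T w hM _ (hFc n)]
    refine Finset.sum_congr rfl fun j _ => ?_
    have hcn := hc n
    have e1 : cfc (F n) T =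
        cfc (fun x => β x ^ 2 * (1 + (n : ℝ) ^ 2 * x ^ 2)⁻¹ * ((n : ℝ) ^ 2 * x)) T * T := by
      conv_rhs => enter [2]; rw [← cfc_id' ℝ T]
      rw [← cfc_mul _ _ T (by fun_prop) (by fun_prop)]
      refine cfc_congr fun x _ => ?_
      have : (1 + (n : ℝ) ^ 2 * x ^ 2) ≠ 0 := by positivity
      simp only [F]
      field_simp
      ring
    have e2 : cfc (F n) T (w j - v j) = 0 := by
      rw [e1, mul_apply_eq_comp, hv2, map_zero]
    have e3 : cfc (F n) T (w j) = cfc (F n) T (v j) := by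
      rwa [map_sub, sub_eq_zero] at e2
    have hsF : IsSelfAdjoint (cfc (F n) T) := cfc_predicate (F n) T
    have e4 : ⟪w j, cfc (F n) T (v j)⟫_ℂ = ⟪v j, cfc (F n) T (v j)⟫_ℂ := by
      rw [← ContinuousLinearMap.adjoint_inner_left, hsF.adjoint_eq, e3,
        ← ContinuousLinearMap.adjoint_inner_left (cfc (F n) T) (v j), hsF.adjoint_eq]
    have e5 : cfc (F n) T = cfc (fun x => β x ^ 2) T -
        cfc (fun x => β x ^ 2) T * cfc (fun x : ℝ => (1 + (n : ℝ) ^ 2 * x ^ 2)⁻¹) T := by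
      rw [← cfc_mul _ _ T (by fun_prop) hcn.continuousOn,
        ← cfc_sub _ _ T (by fun_prop) (Continuous.continuousOn (by fun_prop))]
    rw [e3, e4, e5]
    rfl
  have hlim1 : Tendsto (fun n => ∫ x, F n x ∂(specMeasure T w)) atTop
      (𝓝 (∑ j, (⟪v j, cfc (fun x => β x ^ 2) T (v j) - cfc (fun x => β x ^ 2) T 0⟫_ℂ).re)) := by
    simp only [hint]
    refine tendsto_finsetSum _ fun j _ => ?_
    have h1 := small_tendsto T hsa (hv1 j)
    have h2 : Continuous fun y : H => (⟪v j, cfc (fun x => β x ^ 2) T (v j) -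
        cfc (fun x => β x ^ 2) T y⟫_ℂ).re := by fun_prop
    exact (h2.tendsto 0).comp h1
  have hb2 : Integrable (fun x => β x ^ 2) (specMeasure T w) := hcarr.integrable (by fun_prop)
  have hlim2 : Tendsto (fun n => ∫ x, F n x ∂(specMeasure T w)) atTop
      (𝓝 (∫ x, (Ioi (0 : ℝ)).indicator (fun x => β x ^ 2) x ∂(specMeasure T w))) := by
    refine tendsto_integral_of_dominated_convergence (fun x => β x ^ 2)
      (fun n => (hFc n).aestronglyMeasurable) hb2 (fun n => Eventually.of_forall fun x => ?_) ?_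
    · have h1 : 0 ≤ (1 + (n : ℝ) ^ 2 * x ^ 2)⁻¹ := by positivity
      have h2 : (1 + (n : ℝ) ^ 2 * x ^ 2)⁻¹ ≤ 1 :=
        inv_le_one_of_one_le₀ (by nlinarith [sq_nonneg ((n : ℝ) * x)])
      have h3 := sq_nonneg (β x)
      rw [Real.norm_eq_abs, abs_le]
      simp only [F]
      constructor <;> nlinarith
    · filter_upwards [hcarr.ae] with x hx
      rcases hx.1.eq_or_lt with h0 | h0
      · rw [← h0]
        simp [F]
      · rw [indicator_of_mem (show x ∈ Ioi 0 from h0)]
        have h1 : Tendsto (fun n : ℕ => (1 + (n : ℝ) ^ 2 * x ^ 2)⁻¹) atTop (𝓝 0) := by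
          refine tendsto_inv_atTop_zero.comp (tendsto_atTop_add_const_left _ _ ?_)
          exact ((tendsto_pow_atTop two_ne_zero).comp tendsto_natCast_atTop_atTop).atTop_mul_const
            (by positivity)
        have h2 := (h1.const_mul (β x ^ 2)).const_sub (β x ^ 2)
        rw [mul_zero, sub_zero] at h2
        exact h2
  have heq := tendsto_nhds_unique hlim1 hlim2
  rw [integral_indicator measurableSet_Ioi] at heq
  rw [← ofReal_integral_eq_lintegral_ofReal hb2.integrableOn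
    (Eventually.of_forall fun x => sq_nonneg _), ← heq, ENNReal.ofReal_sum_of_nonneg]
  · refine Finset.sum_congr rfl fun j _ => ?_
    have hs : IsSelfAdjoint (cfc β T) := cfc_predicate β T
    rw [map_zero, sub_zero, cfc_pow β 2 T hβ.continuousOn hsa, sq (cfc β T), mul_apply_eq_comp,
      ← ContinuousLinearMap.adjoint_inner_left, hs.adjoint_eq, inner_self_eq_norm_sq_to_K,
      ← ofReal_norm, ← ENNReal.ofReal_pow (norm_nonneg _)]
    congr 1
    norm_cast
  · intro j _
    have hs : IsSelfAdjoint (cfc β T) := cfc_predicate β T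
    rw [map_zero, sub_zero, cfc_pow β 2 T hβ.continuousOn hsa, sq (cfc β T), mul_apply_eq_comp,
      ← ContinuousLinearMap.adjoint_inner_left, hs.adjoint_eq]
    exact inner_self_nonneg (𝕜 := ℂ)

end Pool.Agent.MP_d9582c_gt.H68
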